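import Pool.Agent.Q20.EX.Stm
import Pool.Agent.Q125.AR.Base

set_option autoImplicit false
set_option linter.unusedSectionVars false
set_option linter.deprecated false

/-! # Project EX, job KUM (helper16): the Kummer characters of the S-units -/

set_option linter.unusedVariables false

namespace Pool.Agent.Q16.EX

open NumberField IsDedekindDomain Pool.Agent.Q92.AR Pool.Agent.Q20.EX Polynomial

section
variable {F M : Type} [Field F] [NumberField F] [Field M] [NumberField M] [Algebra F M]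
  [IsGalois F M]

/-- a prime whose inertia groups are trivial is unramified -/
theorem unr_of_inertia (v : HeightOneSpectrum (𝓞 F))
    (h : ∀ w : HeightOneSpectrum (𝓞 M), w.under (𝓞 F) = v → ∀ g : M ≃ₐ[F] M,
      (∀ x : 𝓞 M, g • x - x ∈ w.asIdeal) → g = 1) : Unramified M v := by
  intro w hw hle
  have hI : v.asIdeal = w.asIdeal.under (𝓞 F) := by
    rw [← hw]
    rfl
  rw [hI] at hle
  have hwp : w.asIdeal.IsPrime := w.isPrime
  have hover : w.asIdeal.LiesOver (w.asIdeal.under (𝓞 F)) := inferInstance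
  have hI0 : w.asIdeal.under (𝓞 F) ≠ ⊥ := Ideal.under_ne_bot (𝓞 F) w.ne_bot
  have hIp : (w.asIdeal.under (𝓞 F)).IsPrime := inferInstance
  have hImax : (w.asIdeal.under (𝓞 F)).IsMaximal := hIp.isMaximal hI0
  have hfin : Finite (𝓞 F ⧸ w.asIdeal.under (𝓞 F)) := Ring.HasFiniteQuotients.finiteQuotient hI0
  have hcard : Nat.card (w.asIdeal.inertia Gal(M/F)) =
      Ideal.ramificationIdxIn (w.asIdeal.under (𝓞 F)) (𝓞 M) :=
    Ideal.card_inertia_eq_ramificationIdxIn (w.asIdeal.under (𝓞 F)) w.asIdeal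
  have h1 : Ideal.ramificationIdxIn (w.asIdeal.under (𝓞 F)) (𝓞 M) =
      w.asIdeal.ramificationIdx (𝓞 F) :=
    Ideal.ramificationIdxIn_eq_ramificationIdx (w.asIdeal.under (𝓞 F)) w.asIdeal Gal(M/F)
  have h2 : (w.asIdeal.under (𝓞 F)).ramificationIdx' w.asIdeal =
      w.asIdeal.ramificationIdx (𝓞 F) :=
    Ideal.ramificationIdx'_eq_ramificationIdx (w.asIdeal.under (𝓞 F)) w.asIdeal hI0
  have h3 : Nat.card (w.asIdeal.inertia Gal(M/F)) = 1 := by
    rw [Nat.card_eq_one_iff_unique]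
    refine ⟨⟨fun a b => ?_⟩, ⟨1⟩⟩
    apply Subtype.ext
    rw [h w hw a.1 (fun x => a.2 x), h w hw b.1 (fun x => b.2 x)]
  have h4 : (w.asIdeal.under (𝓞 F)).ramificationIdx' w.asIdeal = 1 := by
    rw [h2, ← h1, ← hcard, h3]
  exact (Ideal.ramificationIdx'_ne_one_iff (hle.trans (Ideal.pow_le_self two_ne_zero))).2 hle h4

end


section
variable {F M : Type} [Field F] [NumberField F] [Field M] [NumberField M] [Algebra F M]

/-- inertia elements act trivially on the residues of the local integers -/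
theorem inertia_val {w : HeightOneSpectrum (𝓞 M)} {g : M ≃ₐ[F] M}
    (hg : ∀ x : 𝓞 M, g • x - x ∈ w.asIdeal) {x : M} (hx : w.valuation M x ≤ 1) :
    w.valuation M (g x - x) < 1 := by
  obtain ⟨a, d, had⟩ := HeightOneSpectrum.exists_primeCompl_mul_eq_of_integer w x hx
  have hsm : ∀ y : 𝓞 M, algebraMap (𝓞 M) M (g • y) = g (algebraMap (𝓞 M) M y) := fun y => rfl
  have hlt : ∀ y : 𝓞 M, w.valuation M (g (algebraMap (𝓞 M) M y) - algebraMap (𝓞 M) M y) < 1 := by
    intro y
    rw [← hsm, ← map_sub, w.valuation_lt_one_iff_mem]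
    exact hg y
  have hle : ∀ y : 𝓞 M, w.valuation M (algebraMap (𝓞 M) M y) ≤ 1 := fun y => w.valuation_le_one y
  have hd1 : w.valuation M (algebraMap (𝓞 M) M d) = 1 := by
    rw [w.valuation_of_algebraMap, w.intValuation_eq_one_iff_mem_primeCompl]
    exact d.2
  have hd2 : w.valuation M (g (algebraMap (𝓞 M) M d)) = 1 := by
    have h1 := hlt d
    have h2 : g (algebraMap (𝓞 M) M d) = (g (algebraMap (𝓞 M) M d) - algebraMap (𝓞 M) M d) +
      algebraMap (𝓞 M) M d := by ring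
    rw [h2]
    rw [Valuation.map_add_eq_of_lt_right, hd1]
    rw [hd1]
    exact h1
  have h3 : (g x - x) * (g (algebraMap (𝓞 M) M d) * algebraMap (𝓞 M) M d) =
      (g (algebraMap (𝓞 M) M a) - algebraMap (𝓞 M) M a) * algebraMap (𝓞 M) M d -
        algebraMap (𝓞 M) M a * (g (algebraMap (𝓞 M) M d) - algebraMap (𝓞 M) M d) := by
    rw [← had, map_mul]
    ring
  have h4 : w.valuation M (g x - x) = w.valuation M ((g x - x) *
      (g (algebraMap (𝓞 M) M d) * algebraMap (𝓞 M) M d)) := by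
    rw [map_mul, map_mul, hd1, hd2, mul_one, mul_one]
  rw [h4, h3]
  refine (Valuation.map_sub _ _ _).trans_lt (max_lt ?_ ?_)
  · rw [map_mul, hd1, mul_one]
    exact hlt a
  · rw [map_mul]
    exact (mul_le_of_le_one_left' (hle a)).trans_lt (hlt d)

/-- powers of a unit near `1` -/
theorem val_pow_sub_one {w : HeightOneSpectrum (𝓞 M)} {c : M} (hc : w.valuation M (c - 1) < 1)
    (k : ℕ) : w.valuation M (c ^ k - 1) < 1 := by
  induction k with
  | zero =>
    rw [pow_zero, sub_self, map_zero]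
    exact zero_lt_one
  | succ k ih =>
    have h1 : c ^ (k + 1) - 1 = (c ^ k - 1) * (c - 1) + (c - 1) + (c ^ k - 1) := by ring
    rw [h1]
    refine (Valuation.map_add _ _ _).trans_lt (max_lt ?_ ih)
    refine (Valuation.map_add _ _ _).trans_lt (max_lt ?_ hc)
    rw [map_mul]
    exact (mul_le_of_le_one_left' ih.le).trans_lt hc

/-- a root of unity of order prime to `w` which is `≡ 1` is `1` -/
theorem root_eq_one {w : HeightOneSpectrum (𝓞 M)} {n : ℕ} (hn : w.valuation M (n : M) = 1) {c : M}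
    (hc1 : c ^ n = 1) (hc : w.valuation M (c - 1) < 1) : c = 1 := by
  by_contra hne
  have h1 : ∑ i ∈ Finset.range n, c ^ i = 0 := by
    have h2 := geom_sum_mul c n
    rw [hc1, sub_self] at h2
    exact (mul_eq_zero.1 h2).resolve_right (sub_ne_zero.2 hne)
  have h2 : (n : M) = - ∑ i ∈ Finset.range n, (c ^ i - 1) := by
    rw [Finset.sum_sub_distrib, h1, Finset.sum_const, Finset.card_range, nsmul_eq_mul]
    ring
  have h3 : w.valuation M (n : M) < 1 := by
    rw [h2, Valuation.map_neg]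
    exact Valuation.map_sum_lt _ one_ne_zero fun i _ => val_pow_sub_one hc i
  exact h3.ne hn

/-- **Inertia elements at primes not dividing `N1` fix the `n`-th roots of the `S`-units.** -/
theorem fix_root {n N1 : ℕ} (hn0 : n ≠ 0) (hn : n ∣ N1) {w : HeightOneSpectrum (𝓞 M)}
    (hw : (N1 : 𝓞 F) ∉ (w.under (𝓞 F)).asIdeal) {g : M ≃ₐ[F] M}
    (hg : ∀ x : 𝓞 M, g • x - x ∈ w.asIdeal) {a : Fˣ} (ha : a ∈ SU F N1) {r : M}
    (hr : r ^ n = algebraMap F M (a : F)) : g r = r := by
  have hr0 : r ≠ 0 := by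
    rintro rfl
    rw [zero_pow hn0] at hr
    exact a.ne_zero ((map_eq_zero_iff _ (FaithfulSMul.algebraMap_injective F M)).1 hr.symm)
  have hover : w.asIdeal.LiesOver (w.under (𝓞 F)).asIdeal := ⟨rfl⟩
  have hva : (w.under (𝓞 F)).valuation F (a : F) = 1 := by
    rw [Pool.Agent.Q125.AR.valuation_eq_exp, ha _ hw, neg_zero, WithZero.exp_zero]
  have hwr : w.valuation M r = 1 := by
    have h1 : w.valuation M r ^ n = 1 := by
      rw [← map_pow, hr, ← HeightOneSpectrum.valuation_liesOver (K := F) M (w.under (𝓞 F)) w,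
        hva, one_pow]
    exact (pow_eq_one_iff.1 h1).resolve_right hn0
  have hwn : w.valuation M (n : M) = 1 := by
    have h1 : (n : 𝓞 M) ∉ w.asIdeal := by
      intro h2
      apply hw
      change algebraMap (𝓞 F) (𝓞 M) (N1 : 𝓞 F) ∈ w.asIdeal
      rw [map_natCast]
      obtain ⟨c, rfl⟩ := hn
      rw [Nat.cast_mul]
      exact w.asIdeal.mul_mem_right _ h2
    have h2 := (w.valuation_eq_one_iff_notMem (K := M) (r := (n : 𝓞 M))).2 h1
    rwa [map_natCast] at h2
  have hc1 : (g r / r) ^ n = 1 := by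
    rw [div_pow, ← map_pow, hr, g.commutes, div_self]
    exact fun h => a.ne_zero ((map_eq_zero_iff _ (FaithfulSMul.algebraMap_injective F M)).1 h)
  have hc2 : w.valuation M (g r / r - 1) < 1 := by
    have h1 : g r / r - 1 = (g r - r) / r := by
      rw [sub_div, div_self hr0]
    rw [h1, map_div₀, hwr, div_one]
    exact inertia_val hg hwr.le
  have h1 := root_eq_one hwn hc1 hc2
  rwa [div_eq_one_iff_eq hr0] at h1

/-- the divisor of a power -/
theorem prin_pow' (y : Fˣ) (n : ℕ) : prin (y ^ n) = n • prin y :=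
  (prinHom (F := F)).map_nsmul n (Additive.ofMul y)

/-- roots of `S`-units are `S`-units -/
theorem mem_SU_of_pow {n N1 : ℕ} (hn0 : n ≠ 0) {y : Fˣ} (h : y ^ n ∈ SU F N1) : y ∈ SU F N1 := by
  intro v hv
  have h1 : prin (y ^ n) v = 0 := h v hv
  rw [prin_pow', Finsupp.smul_apply, nsmul_eq_mul, mul_eq_zero] at h1
  exact h1.resolve_left (by exact_mod_cast hn0)

variable [IsGalois F M]

/-- the Kummer character of an element whose `n`-th power is in `F` -/
noncomputable def kumHom (ι : M →+* ℂ) (r : Mˣ)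
    (hr : ∀ g h : M ≃ₐ[F] M, g (h (r : M) / (r : M)) = h (r : M) / (r : M)) :
    (M ≃ₐ[F] M) →* ℂˣ where
  toFun g := Units.map (ι : M →* ℂ) (Units.map (g : M →* M) r / r)
  map_one' := by
    apply Units.ext
    change ι (((Units.map (((1 : M ≃ₐ[F] M) : M →* M)) r / r : Mˣ) : M)) = 1
    rw [Units.val_div_eq_div_val]
    change ι ((r : M) / (r : M)) = 1
    rw [div_self r.ne_zero, map_one]
  map_mul' g h := by
    apply Units.ext
    change ι (((Units.map (((g * h : M ≃ₐ[F] M) : M →* M)) r / r : Mˣ) : M)) =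
      ι (((Units.map ((g : M →* M)) r / r : Mˣ) : M)) *
      ι (((Units.map ((h : M →* M)) r / r : Mˣ) : M))
    rw [Units.val_div_eq_div_val, Units.val_div_eq_div_val, Units.val_div_eq_div_val, ← map_mul]
    change ι (g (h (r : M)) / (r : M)) = ι (g (r : M) / (r : M) * (h (r : M) / (r : M)))
    congr 1
    have h1 := hr g h
    rw [map_div₀] at h1
    have h2 : g (r : M) ≠ 0 := (map_ne_zero g).2 r.ne_zero
    rw [← h1]
    field_simp

theorem kumHom_apply (ι : M →+* ℂ) (r : Mˣ)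
    (hr : ∀ g h : M ≃ₐ[F] M, g (h (r : M) / (r : M)) = h (r : M) / (r : M)) (g : M ≃ₐ[F] M) :
    ((kumHom ι r hr g : ℂˣ) : ℂ) = ι (g (r : M) / (r : M)) := by
  change ι (((Units.map ((g : M →* M)) r / r : Mˣ) : M)) = _
  rw [Units.val_div_eq_div_val]
  rfl

/-- the Kummer characters -/
theorem exists_kum {n N1 : ℕ} {ζ : F} (hn0 : n ≠ 0) (hζ : IsPrimitiveRoot ζ n)
    (hex : ∀ x ∈ SU F N1, ∃ r : M, r ^ n = algebraMap F M (x : F)) :
    ∃ k : Fˣ → ((M ≃ₐ[F] M) →* ℂˣ), (∀ x g, k x g ^ n = 1) ∧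
    (∀ x ∈ SU F N1, ∀ y ∈ SU F N1, k (x * y) = k x * k y) ∧
    ∀ x ∈ SU F N1, k x = 1 → ∃ y ∈ SU F N1, x = y ^ n := by
  classical
  have hinj : Function.Injective (algebraMap F M) := FaithfulSMul.algebraMap_injective F M
  obtain ⟨ι⟩ : Nonempty (M →+* ℂ) := inferInstance
  have : NeZero n := ⟨hn0⟩
  have hζM : IsPrimitiveRoot (algebraMap F M ζ) n := hζ.map_of_injective hinj
  have hfix : ∀ (c : M), c ^ n = 1 → ∀ g : M ≃ₐ[F] M, g c = c := by
    intro c hc g
    obtain ⟨i, -, rfl⟩ := hζM.eq_pow_of_pow_eq_one hc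
    rw [map_pow, g.commutes]
  have hH : ∀ (x : Fˣ) (r : Mˣ), (r : M) ^ n = algebraMap F M (x : F) →
      ∀ h : M ≃ₐ[F] M, (h (r : M) / (r : M)) ^ n = 1 := by
    intro x r hr h
    rw [div_pow, ← map_pow, hr, h.commutes, div_self]
    rw [← hr]
    exact pow_ne_zero _ r.ne_zero
  have hK : ∀ (x : Fˣ) (r : Mˣ), (r : M) ^ n = algebraMap F M (x : F) →
      ∀ g h : M ≃ₐ[F] M, g (h (r : M) / (r : M)) = h (r : M) / (r : M) :=
    fun x r hr g h => hfix _ (hH x r hr h) g
  let k : Fˣ → ((M ≃ₐ[F] M) →* ℂˣ) := fun x =>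
    if h : ∃ r : Mˣ, (r : M) ^ n = algebraMap F M (x : F) then
      kumHom ι h.choose (hK x h.choose h.choose_spec) else 1
  have hk1 : ∀ x : Fˣ, (∃ r : Mˣ, (r : M) ^ n = algebraMap F M (x : F)) →
      ∃ r : Mˣ, (r : M) ^ n = algebraMap F M (x : F) ∧
        ∀ g, ((k x g : ℂˣ) : ℂ) = ι (g (r : M) / (r : M)) := by
    intro x h
    refine ⟨h.choose, h.choose_spec, fun g => ?_⟩
    have h1 : k x = kumHom ι h.choose (hK x h.choose h.choose_spec) := dif_pos h
    rw [h1, kumHom_apply]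
  have hk2 : ∀ x : Fˣ, (¬ ∃ r : Mˣ, (r : M) ^ n = algebraMap F M (x : F)) → k x = 1 :=
    fun x h => dif_neg h
  have hex' : ∀ x ∈ SU F N1, ∃ r : Mˣ, (r : M) ^ n = algebraMap F M (x : F) := by
    intro x hx
    obtain ⟨r, hr⟩ := hex x hx
    have hr0 : r ≠ 0 := by
      rintro rfl
      rw [zero_pow hn0] at hr
      exact x.ne_zero ((map_eq_zero_iff _ hinj).1 hr.symm)
    exact ⟨Units.mk0 r hr0, hr⟩
  refine ⟨k, fun x g => ?_, fun x hx y hy => ?_, fun x hx h1 => ?_⟩
  · by_cases h : ∃ r : Mˣ, (r : M) ^ n = algebraMap F M (x : F)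
    · obtain ⟨r, hr, hrk⟩ := hk1 x h
      apply Units.ext
      rw [Units.val_pow_eq_pow_val, hrk, ← map_pow, hH x r hr, map_one, Units.val_one]
    · rw [hk2 x h, MonoidHom.one_apply, one_pow]
  · obtain ⟨r, hr, hrk⟩ := hk1 x (hex' x hx)
    obtain ⟨s, hs, hsk⟩ := hk1 y (hex' y hy)
    obtain ⟨t, ht, htk⟩ := hk1 (x * y) (hex' _ ((SU F N1).mul_mem hx hy))
    ext g
    rw [MonoidHom.mul_apply, Units.val_mul, hrk, hsk, htk, ← map_mul]
    congr 1
    have h1 : ((t : M) / ((r : M) * (s : M))) ^ n = 1 := by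
      rw [div_pow, mul_pow, ht, hr, hs, Units.val_mul, map_mul, div_self]
      rw [← hr, ← hs]
      exact mul_ne_zero (pow_ne_zero _ r.ne_zero) (pow_ne_zero _ s.ne_zero)
    have h2 := hfix _ h1 g
    rw [map_div₀, map_mul] at h2
    have h3 : g (r : M) ≠ 0 := (map_ne_zero g).2 r.ne_zero
    have h4 : g (s : M) ≠ 0 := (map_ne_zero g).2 s.ne_zero
    have h5 := r.ne_zero
    have h6 := s.ne_zero
    have h7 := t.ne_zero
    rw [div_eq_div_iff (mul_ne_zero h3 h4) (mul_ne_zero h5 h6)] at h2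
    rw [div_mul_div_comm, div_eq_div_iff h7 (mul_ne_zero h5 h6)]
    rw [h2]
    ring
  · obtain ⟨r, hr, hrk⟩ := hk1 x (hex' x hx)
    have h2 : ∀ g : M ≃ₐ[F] M, g (r : M) = r := by
      intro g
      have h3 := hrk g
      rw [h1, MonoidHom.one_apply, Units.val_one] at h3
      have h4 : ι (g (r : M) / (r : M)) = ι 1 := by rw [← h3, map_one]
      have h5 := ι.injective h4
      rwa [div_eq_one_iff_eq r.ne_zero] at h5
    obtain ⟨y, hy⟩ := (IsGalois.mem_range_algebraMap_iff_fixed (F := F) (r : M)).2 h2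
    have hy0 : y ≠ 0 := by
      rintro rfl
      rw [map_zero] at hy
      exact r.ne_zero hy.symm
    have hyx : x = (Units.mk0 y hy0) ^ n := by
      apply Units.ext
      rw [Units.val_pow_eq_pow_val, Units.val_mk0]
      apply hinj
      rw [map_pow, hy, hr]
    refine ⟨Units.mk0 y hy0, mem_SU_of_pow hn0 ?_, hyx⟩
    rw [← hyx]
    exact hx

end

/-- **JOB KUM.** -/
theorem kum : S_KUM := by
  classical
  intro hU F _ _ n N1 ζ hn2 hζ hN1 hnN
  have hn0 : n ≠ 0 := by omega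
  have hidx : ((SU F N1).map (powMonoidHom n)).relIndex (SU F N1) ≠ 0 := by
    intro h
    have h1 := hU F n N1 ζ hn2 hζ hN1
    rw [h] at h1
    have h2 : n ^ (2 * Nat.card (primesOf F N1) + Module.finrank ℚ F) ≠ 0 := pow_ne_zero _ hn0
    apply h2
    rw [← h1]
    norm_num
  have hfi : (((SU F N1).map (powMonoidHom n)).subgroupOf (SU F N1)).FiniteIndex := ⟨hidx⟩
  have hfq : Finite (SU F N1 ⧸ ((SU F N1).map (powMonoidHom n)).subgroupOf (SU F N1)) :=
    Subgroup.finite_quotient_of_finiteIndex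
  have := Fintype.ofFinite (SU F N1 ⧸ ((SU F N1).map (powMonoidHom n)).subgroupOf (SU F N1))
  obtain ⟨A, hA1, hA2⟩ : ∃ A : Finset Fˣ, (∀ a ∈ A, a ∈ SU F N1) ∧
      ∀ x ∈ SU F N1, ∃ a ∈ A, ∃ s : Fˣ, x = a * s ^ n := by
    refine ⟨Finset.univ.image fun q : (SU F N1 ⧸
      ((SU F N1).map (powMonoidHom n)).subgroupOf (SU F N1)) => ((q.out : SU F N1) : Fˣ), ?_, ?_⟩
    · intro a ha
      obtain ⟨q, -, rfl⟩ := Finset.mem_image.1 ha
      exact q.out.2
    · intro x hx
      let q : (SU F N1 ⧸ ((SU F N1).map (powMonoidHom n)).subgroupOf (SU F N1)) :=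
        QuotientGroup.mk ⟨x, hx⟩
      refine ⟨((q.out : SU F N1) : Fˣ), Finset.mem_image.2 ⟨q, Finset.mem_univ _, rfl⟩, ?_⟩
      have h1 : (QuotientGroup.mk q.out : (SU F N1 ⧸
          ((SU F N1).map (powMonoidHom n)).subgroupOf (SU F N1))) = QuotientGroup.mk ⟨x, hx⟩ :=
        QuotientGroup.out_eq' q
      rw [QuotientGroup.eq, Subgroup.mem_subgroupOf] at h1
      obtain ⟨s, hs, hs2⟩ := h1
      refine ⟨s, ?_⟩
      have h2 : s ^ n = ((q.out : SU F N1) : Fˣ)⁻¹ * x := hs2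
      rw [h2, mul_inv_cancel_left]
  let f : F[X] := ∏ a ∈ A, (X ^ n - C (a : F))
  have hf0 : f ≠ 0 := Finset.prod_ne_zero_iff.2 fun a _ => X_pow_sub_C_ne_zero (by omega) _
  let M : Type := f.SplittingField
  have hMf : FiniteDimensional F M := inferInstance
  have hMn : NumberField M := NumberField.of_module_finite F M
  have hnor : Normal F M := Normal.of_isSplittingField f
  have hgal : IsGalois F M := ⟨⟩
  have hinj : Function.Injective (algebraMap F M) := FaithfulSMul.algebraMap_injective F M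
  have hrt : ∀ a ∈ A, ∃ r : M, r ^ n = algebraMap F M (a : F) := by
    intro a ha
    have h1 : ((X ^ n - C (a : F)).map (algebraMap F M)).Splits := by
      refine (SplittingField.splits f).of_dvd (Polynomial.map_ne_zero hf0) ?_
      exact Polynomial.map_dvd _ (Finset.dvd_prod_of_mem _ ha)
    have h2 : ((X ^ n - C (a : F)).map (algebraMap F M)).degree ≠ 0 := by
      rw [degree_map, degree_X_pow_sub_C (by omega)]
      exact_mod_cast hn0
    obtain ⟨r, hr⟩ := h1.exists_eval_eq_zero h2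
    refine ⟨r, ?_⟩
    rw [eval_map, eval₂_sub, eval₂_X_pow, eval₂_C, sub_eq_zero] at hr
    exact hr
  have hex : ∀ x ∈ SU F N1, ∃ r : M, r ^ n = algebraMap F M (x : F) := by
    intro x hx
    obtain ⟨a, ha, s, rfl⟩ := hA2 x hx
    obtain ⟨r, hr⟩ := hrt a ha
    refine ⟨r * algebraMap F M (s : F), ?_⟩
    rw [mul_pow, hr, Units.val_mul, Units.val_pow_eq_pow_val, map_mul, map_pow]
  obtain ⟨k, hk⟩ := exists_kum (M := M) hn0 hζ hex
  refine ⟨M, inferInstance, hMn, inferInstance, hgal, k, ?_, hk⟩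
  intro v hv
  by_contra hN
  apply hv
  refine unr_of_inertia v fun w hw g hg => ?_
  have h1 : ∀ x ∈ f.rootSet M, g x = x := by
    intro x hx
    have h2 : aeval x f = 0 := (mem_rootSet.1 hx).2
    rw [map_prod, Finset.prod_eq_zero_iff] at h2
    obtain ⟨a, ha, h3⟩ := h2
    rw [map_sub, map_pow, aeval_X, aeval_C, sub_eq_zero] at h3
    refine fix_root hn0 hnN ?_ hg (hA1 a ha) h3
    rw [hw]
    exact hN
  have h2 : (g : M →ₐ[F] M) = AlgHom.id F M := by
    refine AlgHom.ext_of_adjoin_eq_top (SplittingField.adjoin_rootSet f) fun x hx => ?_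
    exact h1 x hx
  ext x
  exact DFunLike.congr_fun h2 x

end Pool.Agent.Q16.EX
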